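import Mathlib

set_option autoImplicit false

/-!
# Sparse configurations in the union of two links

`core`: let `L₁`, `L₂` be disjoint families of `k`-sets (indexed, `k ≥ 2`) such that every covered
vertex outside `Bad` is covered by both families.  If the families together have at least
`(e-1) |Bad| + e` members then some `e` of them cover at most `(k-1) e + 1` vertices.
-/

namespace Pool.Agent.H238R2.BES

open Finset

theorem core {V ι : Type} [DecidableEq V] [DecidableEq ι] (w : ι → Finset V) (k e : ℕ)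
    (hk : 2 ≤ k) (he : 1 ≤ e) (L₁ L₂ : Finset ι) (hdis : Disjoint L₁ L₂)
    (hw : ∀ i ∈ L₁ ∪ L₂, (w i).card ≤ k) (Bad : Finset V)
    (hbad : ∀ i ∈ L₁ ∪ L₂, ∀ y ∈ w i, y ∉ Bad → (∃ j ∈ L₁, y ∈ w j) ∧ (∃ j ∈ L₂, y ∈ w j))
    (hbig : (e - 1) * Bad.card + e ≤ (L₁ ∪ L₂).card) :
    ∃ S ⊆ L₁ ∪ L₂, S.card = e ∧ (S.biUnion w).card ≤ (k - 1) * e + 1 := by
  classical
  set L := L₁ ∪ L₂ with hL
  by_contra hcon
  push Not at hcon
  -- extension by an edge which meets the current vertex set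
  have hext : ∀ S : Finset ι, (S.biUnion w).card ≤ (k - 1) * S.card + 1 → ∀ g ∈ L, g ∉ S →
      (∃ y ∈ w g, y ∈ S.biUnion w) →
      ((insert g S).biUnion w).card ≤ (k - 1) * (insert g S).card + 1 := by
    intro S hS g hg hgS ⟨y, hy, hyS⟩
    rw [biUnion_insert, card_insert_of_notMem hgS]
    have h1 : (w g ∪ S.biUnion w).card = (S.biUnion w).card + (w g \ S.biUnion w).card := by
      have h := card_sdiff_add_card (w g) (S.biUnion w)
      omega
    have h2 : (w g \ S.biUnion w).card + 1 ≤ (w g).card := by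
      apply Nat.succ_le_of_lt
      apply card_lt_card
      refine ⟨sdiff_subset, fun h => ?_⟩
      have := h hy
      rw [mem_sdiff] at this
      exact this.2 hyS
    have h3 := hw g hg
    have h4 : (k - 1) * (S.card + 1) + 1 = (k - 1) * S.card + 1 + (k - 1) := by ring
    rw [h1, h4]
    omega
  -- every edge lies in a small closed set
  have hclosed : ∀ f ∈ L, ∃ S ⊆ L, f ∈ S ∧ S.card ≤ e - 1 ∧
      ∀ g ∈ L, (∃ y ∈ w g, y ∈ S.biUnion w) → g ∈ S := by
    intro f hf
    obtain ⟨S, hS, hmax⟩ := exists_max_image (L.powerset.filter (fun S => f ∈ S ∧ S.card ≤ e ∧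
      (S.biUnion w).card ≤ (k - 1) * S.card + 1)) card ⟨{f}, by
        simp only [mem_filter, mem_powerset, singleton_subset_iff, mem_singleton, card_singleton,
          singleton_biUnion, mul_one, true_and]
        refine ⟨hf, he, ?_⟩
        have := hw f hf
        omega⟩
    simp only [mem_filter, mem_powerset] at hS
    obtain ⟨hSL, hfS, hSe, hSw⟩ := hS
    have hlt : S.card ≠ e := by
      intro h
      have := hcon S hSL h
      rw [h] at hSw
      omega
    refine ⟨S, hSL, hfS, by omega, ?_⟩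
    intro g hg hgy
    by_contra hgS
    have h1 := hmax (insert g S) (by
      simp only [mem_filter, mem_powerset]
      refine ⟨insert_subset hg hSL, mem_insert_of_mem hfS, ?_, hext S hSw g hg hgS hgy⟩
      rw [card_insert_of_notMem hgS]
      omega)
    rw [card_insert_of_notMem hgS] at h1
    omega
  -- the closed set of the bad vertices
  have hSb : ∀ b : V, ∃ S ⊆ L, S.card ≤ e - 1 ∧
      (∀ g ∈ L, (∃ y ∈ w g, y ∈ S.biUnion w) → g ∈ S) ∧ (∀ g ∈ L, b ∈ w g → g ∈ S) := by
    intro b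
    by_cases h : ∃ f ∈ L, b ∈ w f
    · obtain ⟨f, hf, hbf⟩ := h
      obtain ⟨S, h1, h2, h3, h4⟩ := hclosed f hf
      refine ⟨S, h1, h3, h4, fun g hg hbg => ?_⟩
      exact h4 g hg ⟨b, hbg, mem_biUnion.mpr ⟨f, h2, hbf⟩⟩
    · push Not at h
      exact ⟨∅, empty_subset _, by simp, by simp, fun g hg hbg => absurd hbg (h g hg)⟩
  choose Sb hSbL hSbc hSbcl hSbb using hSb
  set X := Bad.biUnion Sb with hX
  have hXc : X.card ≤ (e - 1) * Bad.card := by
    calc X.card ≤ ∑ b ∈ Bad, (Sb b).card := card_biUnion_le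
      _ ≤ ∑ b ∈ Bad, (e - 1) := sum_le_sum (fun b _ => hSbc b)
      _ = _ := by rw [sum_const, smul_eq_mul, mul_comm]
  have hXcl : ∀ g ∈ L, (∃ y ∈ w g, ∃ j ∈ X, y ∈ w j) → g ∈ X := by
    intro g hg ⟨y, hy, j, hj, hyj⟩
    rw [hX, mem_biUnion] at hj ⊢
    obtain ⟨b, hb, hjb⟩ := hj
    exact ⟨b, hb, hSbcl b g hg ⟨y, hy, mem_biUnion.mpr ⟨j, hjb, hyj⟩⟩⟩
  have hXb : ∀ b ∈ Bad, ∀ g ∈ L, b ∈ w g → g ∈ X := fun b hb g hg hbg =>
    mem_biUnion.mpr ⟨b, hb, hSbb b g hg hbg⟩
  set U := L \ X with hU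
  have hUL : U ⊆ L := sdiff_subset
  have hUc : e ≤ U.card := by
    have h1 := le_card_sdiff X L
    have h2 : L.card - X.card ≤ U.card := h1
    omega
  obtain ⟨S, hS, hmax⟩ := exists_max_image (U.powerset.filter (fun S => S.card ≤ e ∧
      (S.biUnion w).card ≤ (k - 1) * S.card + 1)) card ⟨∅, by simp⟩
  simp only [mem_filter, mem_powerset] at hS
  obtain ⟨hSU, hSe, hSw⟩ := hS
  have hlt : S.card ≠ e := by
    intro h
    have := hcon S (hSU.trans hUL) h
    rw [h] at hSw
    omega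
  have hno : ∀ g ∈ U, (∃ y ∈ w g, y ∈ S.biUnion w) → g ∈ S := by
    intro g hg hgy
    by_contra hgS
    have h1 := hmax (insert g S) (by
      simp only [mem_filter, mem_powerset]
      refine ⟨insert_subset hg hSU, ?_, hext S hSw g (hUL hg) hgS hgy⟩
      rw [card_insert_of_notMem hgS]
      omega)
    rw [card_insert_of_notMem hgS] at h1
    omega
  -- every vertex of the current set is covered twice
  have htwo : ∀ y ∈ S.biUnion w, y ∈ (S ∩ L₁).biUnion w ∧ y ∈ (S ∩ L₂).biUnion w := by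
    intro y hy
    have hy' := hy
    rw [mem_biUnion] at hy'
    obtain ⟨i, hi, hyi⟩ := hy'
    have hiU := hSU hi
    have hiL := hUL hiU
    have hiX : i ∉ X := (mem_sdiff.mp hiU).2
    have hyb : y ∉ Bad := fun h => hiX (hXb y h i hiL hyi)
    obtain ⟨⟨j₁, hj₁, hyj₁⟩, ⟨j₂, hj₂, hyj₂⟩⟩ := hbad i hiL y hyi hyb
    have key : ∀ j ∈ L, y ∈ w j → j ∈ S := by
      intro j hj hyj
      have hjX : j ∉ X := fun h => hiX (hXcl i hiL ⟨y, hyi, j, h, hyj⟩)
      exact hno j (mem_sdiff.mpr ⟨hj, hjX⟩) ⟨y, hyj, hy⟩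
    refine ⟨mem_biUnion.mpr ⟨j₁, mem_inter.mpr ⟨key j₁ (mem_union_left _ hj₁) hyj₁, hj₁⟩, hyj₁⟩,
      mem_biUnion.mpr ⟨j₂, mem_inter.mpr ⟨key j₂ (mem_union_right _ hj₂) hyj₂, hj₂⟩, hyj₂⟩⟩
  have hcard : ∀ M : Finset ι, M ⊆ L → (M.biUnion w).card ≤ M.card * k := by
    intro M hM
    exact card_biUnion_le_card_mul _ _ _ (fun i hi => hw i (hM hi))
  have h1 : (S.biUnion w).card ≤ (S ∩ L₁).card * k :=
    (card_le_card (fun y hy => (htwo y hy).1)).trans
      (hcard _ (inter_subset_left.trans (hSU.trans hUL)))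
  have h2 : (S.biUnion w).card ≤ (S ∩ L₂).card * k :=
    (card_le_card (fun y hy => (htwo y hy).2)).trans
      (hcard _ (inter_subset_left.trans (hSU.trans hUL)))
  have h3 : (S ∩ L₁).card + (S ∩ L₂).card = S.card := by
    rw [← card_union_of_disjoint]
    · rw [← inter_union_distrib_left]
      congr 1
      exact inter_eq_left.mpr (hSU.trans hUL)
    · exact hdis.mono inter_subset_right inter_subset_right
  have h4 : (S.biUnion w).card ≤ (k - 1) * S.card := by
    obtain ⟨k', rfl⟩ : ∃ k', k = k' + 2 := ⟨k - 2, by omega⟩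
    have : k' + 2 - 1 = k' + 1 := by omega
    rw [this]
    nlinarith
  obtain ⟨g, hg⟩ : (U \ S).Nonempty := by
    rw [← card_pos]
    have := le_card_sdiff S U
    omega
  rw [mem_sdiff] at hg
  have h5 := hmax (insert g S) (by
    simp only [mem_filter, mem_powerset]
    refine ⟨insert_subset hg.1 hSU, ?_, ?_⟩
    · rw [card_insert_of_notMem hg.2]; omega
    · rw [card_insert_of_notMem hg.2, biUnion_insert]
      have h6 := card_union_le (w g) (S.biUnion w)
      have h7 := hw g (hUL hg.1)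
      have h8 : (k - 1) * (S.card + 1) + 1 = (k - 1) * S.card + 1 + (k - 1) := by ring
      rw [h8]
      omega)
  rw [card_insert_of_notMem hg.2] at h5
  omega

end Pool.Agent.H238R2.BES
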