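import Mathlib
import Pool.Agent.H238R2.BES.Core

set_option autoImplicit false

/-!
# Hypergraphs without `e` edges on `(r-2)e+3` vertices: neighbourhoods are separated
-/

namespace Pool.Agent.H238R2.BES

open Finset

variable {V : Type} [DecidableEq V]

/-- every edge of `H` has exactly `r` vertices -/
def Unif (r : ℕ) (H : Finset (Finset V)) : Prop := ∀ f ∈ H, f.card = r

/-- the union of any `e` distinct edges of `H` has more than `v` vertices -/
def Free (H : Finset (Finset V)) (v e : ℕ) : Prop :=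
  ∀ S ⊆ H, S.card = e → v < (S.biUnion id).card

/-- the neighbourhood of `x`: the vertices `y ≠ x` that lie in a common edge with `x` -/
def nbr (H : Finset (Finset V)) (x : V) : Finset V := (H.filter (fun f => x ∈ f)).biUnion
  (fun f => f.erase x)

theorem mem_nbr {H : Finset (Finset V)} {x y : V} :
    y ∈ nbr H x ↔ y ≠ x ∧ ∃ f ∈ H, x ∈ f ∧ y ∈ f := by
  unfold nbr
  simp only [mem_biUnion, mem_filter, mem_erase]
  constructor
  · rintro ⟨f, ⟨hf, hx⟩, hne, hy⟩
    exact ⟨hne, f, hf, hx, hy⟩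
  · rintro ⟨hne, f, hf, hx, hy⟩
    exact ⟨f, ⟨hf, hx⟩, hne, hy⟩

/-- two vertices lie in fewer than `e` common edges -/
theorem codeg {r e : ℕ} (hr : 2 ≤ r) {H : Finset (Finset V)} (hH : Unif r H)
    (hfree : Free H ((r - 2) * e + 3) e) {x y : V} (hxy : x ≠ y) (he : 1 ≤ e) :
    (H.filter (fun f => x ∈ f ∧ y ∈ f)).card ≤ e - 1 := by
  by_contra hcon
  push Not at hcon
  obtain ⟨S, hS, hSe⟩ := exists_subset_card_eq (show e ≤ _ by omega :
    e ≤ (H.filter (fun f => x ∈ f ∧ y ∈ f)).card)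
  have h1 := hfree S (hS.trans (filter_subset _ _)) hSe
  have h2 : S.biUnion id ⊆ {x, y} ∪ S.biUnion (fun f => (f.erase x).erase y) := by
    intro z hz
    rw [mem_biUnion] at hz
    obtain ⟨f, hf, hzf⟩ := hz
    simp only [id_eq] at hzf
    by_cases hzx : z = x
    · simp [hzx]
    by_cases hzy : z = y
    · simp [hzy]
    refine mem_union_right _ (mem_biUnion.mpr ⟨f, hf, ?_⟩)
    simp [hzx, hzy, hzf]
  have h3 : (S.biUnion (fun f => (f.erase x).erase y)).card ≤ S.card * (r - 2) := by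
    apply card_biUnion_le_card_mul
    intro f hf
    have h4 := hS hf
    rw [mem_filter] at h4
    rw [card_erase_of_mem (mem_erase.mpr ⟨hxy.symm, h4.2.2⟩), card_erase_of_mem h4.2.1,
      hH f h4.1]
    omega
  have h5 := (card_le_card h2).trans (card_union_le _ _)
  have h6 : ({x, y} : Finset V).card ≤ 2 := card_le_two
  rw [hSe, mul_comm] at h3
  omega

/-- **Near twins force sparse configurations.**  If no `e` edges of the `r`-uniform hypergraph `H`
lie on `(r-2)e+3` vertices then the neighbourhoods of two distinct vertices differ in a positive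
proportion of their elements. -/
theorem separated {r e : ℕ} (hr : 3 ≤ r) (he : 1 ≤ e) {H : Finset (Finset V)} (hH : Unif r H)
    (hfree : Free H ((r - 2) * e + 3) e) {x x' : V} (hxx : x ≠ x') :
    (nbr H x).card + (nbr H x').card ≤
      r * e * ((nbr H x \ nbr H x').card + (nbr H x' \ nbr H x).card) + (r * e) ^ 2 := by
  classical
  set w : Finset V → Finset V := fun f => (f.erase x).erase x' with hw
  set L₁ := H.filter (fun f => x ∈ f ∧ x' ∉ f) with hL₁
  set L₂ := H.filter (fun f => x' ∈ f ∧ x ∉ f) with hL₂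
  set M := H.filter (fun f => x ∈ f ∧ x' ∈ f) with hM
  set N₁ := L₁.biUnion w with hN₁
  set N₂ := L₂.biUnion w with hN₂
  set Z := M.biUnion w with hZ
  set Bad := (N₁ \ N₂) ∪ (N₂ \ N₁) with hBad
  have hMc : M.card ≤ e - 1 := codeg (by omega) hH hfree hxx he
  have hw₁ : ∀ f ∈ L₁, (w f).card = r - 1 := by
    intro f hf
    rw [hL₁, mem_filter] at hf
    have : x' ∉ f.erase x := fun h => hf.2.2 (mem_of_mem_erase h)
    rw [hw]
    simp only
    rw [erase_eq_of_notMem this, card_erase_of_mem hf.2.1, hH f hf.1]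
  have hw₂ : ∀ f ∈ L₂, (w f).card = r - 1 := by
    intro f hf
    rw [hL₂, mem_filter] at hf
    rw [hw]
    simp only
    rw [erase_eq_of_notMem hf.2.2, card_erase_of_mem hf.2.1, hH f hf.1]
  have hwM : ∀ f ∈ M, (w f).card ≤ r - 2 := by
    intro f hf
    rw [hM, mem_filter] at hf
    rw [hw]
    simp only
    rw [card_erase_of_mem (mem_erase.mpr ⟨hxx.symm, hf.2.2⟩), card_erase_of_mem hf.2.1,
      hH f hf.1]
    omega
  have hZc : Z.card ≤ (e - 1) * (r - 2) :=
    (card_biUnion_le_card_mul _ _ _ hwM).trans (Nat.mul_le_mul_right _ hMc)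
  have hN₁c : N₁.card ≤ L₁.card * (r - 1) :=
    card_biUnion_le_card_mul _ _ _ (fun f hf => (hw₁ f hf).le)
  have hN₂c : N₂.card ≤ L₂.card * (r - 1) :=
    card_biUnion_le_card_mul _ _ _ (fun f hf => (hw₂ f hf).le)
  have hdis : Disjoint L₁ L₂ := by
    rw [disjoint_left]
    intro f h1 h2
    rw [hL₁, mem_filter] at h1
    rw [hL₂, mem_filter] at h2
    exact h2.2.2 h1.2.1
  -- the two neighbourhoods
  have hx1 : nbr H x ⊆ insert x' (N₁ ∪ Z) := by
    intro y hy
    rw [mem_nbr] at hy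
    obtain ⟨hne, f, hf, hxf, hyf⟩ := hy
    rw [mem_insert, mem_union]
    by_cases hyx' : y = x'
    · exact Or.inl hyx'
    right
    have hyw : y ∈ w f := by simp [hw, hne, hyx', hyf]
    by_cases hx' : x' ∈ f
    · exact Or.inr (mem_biUnion.mpr ⟨f, by simp [hM, hf, hxf, hx'], hyw⟩)
    · exact Or.inl (mem_biUnion.mpr ⟨f, by simp [hL₁, hf, hxf, hx'], hyw⟩)
  have hx2 : nbr H x' ⊆ insert x (N₂ ∪ Z) := by
    intro y hy
    rw [mem_nbr] at hy
    obtain ⟨hne, f, hf, hxf, hyf⟩ := hy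
    rw [mem_insert, mem_union]
    by_cases hyx : y = x
    · exact Or.inl hyx
    right
    have hyw : y ∈ w f := by simp [hw, hne, hyx, hyf]
    by_cases hx : x ∈ f
    · exact Or.inr (mem_biUnion.mpr ⟨f, by simp [hM, hf, hxf, hx], hyw⟩)
    · exact Or.inl (mem_biUnion.mpr ⟨f, by simp [hL₂, hf, hxf, hx], hyw⟩)
  have hb1 : N₁ \ N₂ ⊆ (nbr H x \ nbr H x') ∪ Z := by
    intro y hy
    rw [mem_sdiff] at hy
    obtain ⟨hy1, hy2⟩ := hy
    rw [hN₁, mem_biUnion] at hy1
    obtain ⟨f, hf, hyf⟩ := hy1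
    simp only [hw, mem_erase] at hyf
    rw [hL₁, mem_filter] at hf
    rw [mem_union, mem_sdiff]
    by_cases hyn : y ∈ nbr H x'
    · right
      rw [mem_nbr] at hyn
      obtain ⟨-, g, hg, hx'g, hyg⟩ := hyn
      have hyw : y ∈ w g := by simp [hw, hyf.1, hyf.2.1, hyg]
      by_cases hxg : x ∈ g
      · exact mem_biUnion.mpr ⟨g, by simp [hM, hg, hxg, hx'g], hyw⟩
      · exact absurd (mem_biUnion.mpr ⟨g, by simp [hL₂, hg, hxg, hx'g], hyw⟩) hy2
    · left
      exact ⟨mem_nbr.mpr ⟨hyf.2.1, f, hf.1, hf.2.1, hyf.2.2⟩, hyn⟩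
  have hb2 : N₂ \ N₁ ⊆ (nbr H x' \ nbr H x) ∪ Z := by
    intro y hy
    rw [mem_sdiff] at hy
    obtain ⟨hy1, hy2⟩ := hy
    rw [hN₂, mem_biUnion] at hy1
    obtain ⟨f, hf, hyf⟩ := hy1
    simp only [hw, mem_erase] at hyf
    rw [hL₂, mem_filter] at hf
    rw [mem_union, mem_sdiff]
    by_cases hyn : y ∈ nbr H x
    · right
      rw [mem_nbr] at hyn
      obtain ⟨-, g, hg, hxg, hyg⟩ := hyn
      have hyw : y ∈ w g := by simp [hw, hyf.1, hyf.2.1, hyg]
      by_cases hx'g : x' ∈ g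
      · exact mem_biUnion.mpr ⟨g, by simp [hM, hg, hxg, hx'g], hyw⟩
      · exact absurd (mem_biUnion.mpr ⟨g, by simp [hL₁, hg, hxg, hx'g], hyw⟩) hy2
    · left
      exact ⟨mem_nbr.mpr ⟨hyf.1, f, hf.1, hf.2.1, hyf.2.2⟩, hyn⟩
  have hBc : Bad.card ≤ (nbr H x \ nbr H x').card + (nbr H x' \ nbr H x).card +
      (e - 1) * (r - 2) := by
    have h1 : Bad ⊆ (nbr H x \ nbr H x') ∪ (nbr H x' \ nbr H x) ∪ Z := by
      intro y hy
      rw [hBad, mem_union] at hy
      rcases hy with hy | hy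
      · have := hb1 hy
        simp only [mem_union] at this ⊢
        tauto
      · have := hb2 hy
        simp only [mem_union] at this ⊢
        tauto
    have h2 := card_le_card h1
    have h3 := card_union_le ((nbr H x \ nbr H x') ∪ (nbr H x' \ nbr H x)) Z
    have h4 := card_union_le (nbr H x \ nbr H x') (nbr H x' \ nbr H x)
    omega
  have hbad : ∀ f ∈ L₁ ∪ L₂, ∀ y ∈ w f, y ∉ Bad →
      (∃ g ∈ L₁, y ∈ w g) ∧ (∃ g ∈ L₂, y ∈ w g) := by
    intro f hf y hy hyB
    have h1 : y ∈ N₁ ∪ N₂ := by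
      rw [mem_union] at hf ⊢
      rcases hf with hf | hf
      · exact Or.inl (mem_biUnion.mpr ⟨f, hf, hy⟩)
      · exact Or.inr (mem_biUnion.mpr ⟨f, hf, hy⟩)
    have h2 : y ∈ N₁ ∧ y ∈ N₂ := by
      rw [hBad, mem_union, mem_sdiff, mem_sdiff] at hyB
      rw [mem_union] at h1
      tauto
    exact ⟨mem_biUnion.mp h2.1, mem_biUnion.mp h2.2⟩
  have hsmall : (L₁ ∪ L₂).card < (e - 1) * Bad.card + e := by
    by_contra hcon
    push Not at hcon
    obtain ⟨S, hS, hSe, hSw⟩ := core w (r - 1) e (by omega) he L₁ L₂ hdis (by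
      intro f hf
      rw [mem_union] at hf
      rcases hf with hf | hf
      · exact (hw₁ f hf).le
      · exact (hw₂ f hf).le) Bad hbad hcon
    have h1 := hfree S (by
      intro f hf
      have := hS hf
      rw [mem_union, hL₁, hL₂, mem_filter, mem_filter] at this
      rcases this with h | h
      · exact h.1
      · exact h.1) hSe
    have h2 : S.biUnion id ⊆ {x, x'} ∪ S.biUnion w := by
      intro z hz
      rw [mem_biUnion] at hz
      obtain ⟨f, hf, hzf⟩ := hz
      simp only [id_eq] at hzf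
      by_cases hzx : z = x
      · simp [hzx]
      by_cases hzy : z = x'
      · simp [hzy]
      refine mem_union_right _ (mem_biUnion.mpr ⟨f, hf, ?_⟩)
      simp [hw, hzx, hzy, hzf]
    have h5 := (card_le_card h2).trans (card_union_le _ _)
    have h6 : ({x, x'} : Finset V).card ≤ 2 := card_le_two
    have h7 : r - 1 - 1 = r - 2 := by omega
    rw [h7] at hSw
    omega
  have hc1 : (nbr H x).card ≤ N₁.card + Z.card + 1 := by
    have h1 := (card_le_card hx1).trans (card_insert_le _ _)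
    have h2 := card_union_le N₁ Z
    omega
  have hc2 : (nbr H x').card ≤ N₂.card + Z.card + 1 := by
    have h1 := (card_le_card hx2).trans (card_insert_le _ _)
    have h2 := card_union_le N₂ Z
    omega
  have hLc : (L₁ ∪ L₂).card = L₁.card + L₂.card := card_union_of_disjoint hdis
  rw [hLc] at hsmall
  obtain ⟨r', rfl⟩ : ∃ r', r = r' + 3 := ⟨r - 3, by omega⟩
  obtain ⟨e', rfl⟩ : ∃ e', e = e' + 1 := ⟨e - 1, by omega⟩
  have e1 : r' + 3 - 1 = r' + 2 := by omega
  have e2 : r' + 3 - 2 = r' + 1 := by omega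
  have e3 : e' + 1 - 1 = e' := by omega
  rw [e1] at hN₁c hN₂c
  rw [e2, e3] at hZc hBc
  rw [e3] at hsmall
  set D := (nbr H x \ nbr H x').card + (nbr H x' \ nbr H x).card with hD
  have h1 : L₁.card + L₂.card ≤ e' * (D + e' * (r' + 1)) + e' := by
    have : e' * Bad.card ≤ e' * (D + e' * (r' + 1)) := Nat.mul_le_mul_left _ hBc
    omega
  have h2 : N₁.card + N₂.card ≤ (e' * (D + e' * (r' + 1)) + e') * (r' + 2) := by
    calc N₁.card + N₂.card ≤ (L₁.card + L₂.card) * (r' + 2) := by rw [add_mul]; omega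
      _ ≤ _ := Nat.mul_le_mul_right _ h1
  have h3 : (nbr H x).card + (nbr H x').card ≤
      (e' * (D + e' * (r' + 1)) + e') * (r' + 2) + 2 * (e' * (r' + 1)) + 2 := by omega
  refine h3.trans ?_
  have h4 : (r' + 3) * (e' + 1) * D + ((r' + 3) * (e' + 1)) ^ 2 =
    ((e' * (D + e' * (r' + 1)) + e') * (r' + 2) + 2 * (e' * (r' + 1)) + 2) +
      ((r' + e' + 3) * D + (e' ^ 2 * (3 * r' + 7) + e' * (2 * r' ^ 2 + 9 * r' + 14) +
        (r' ^ 2 + 6 * r' + 7))) := by ring
  rw [h4]
  exact Nat.le_add_right _ _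

end Pool.Agent.H238R2.BES
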