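import Mathlib
import Pool.Agent.H238R2.LR.Pack
import Pool.Agent.H238R2.BES.Twins

set_option autoImplicit false

/-!
# The Brown–Erdős–Sós bound for hypergraphs of bounded VC dimension
-/

namespace Pool.Agent.H238R2.BES

open Finset

variable {V : Type} [DecidableEq V]

/-- the family of neighbourhoods of `H` has VC dimension at most `d`: a set of vertices all of whose
subsets are cut out by neighbourhoods has at most `d` elements -/
def NbrVC (H : Finset (Finset V)) (d : ℕ) : Prop :=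
  ∀ S : Finset V, (∀ T ⊆ S, ∃ x : V, ∀ y ∈ S, (y ∈ nbr H x ↔ y ∈ T)) → S.card ≤ d

theorem deg_le {r e : ℕ} (hr : 3 ≤ r) (he : 1 ≤ e) {H : Finset (Finset V)} (hH : Unif r H)
    (hfree : Free H ((r - 2) * e + 3) e) (x : V) :
    (H.filter (fun f => x ∈ f)).card * (r - 1) ≤ (nbr H x).card * (e - 1) := by
  classical
  have h := sum_card_bipartiteAbove_eq_sum_card_bipartiteBelow
    (s := H.filter (fun f => x ∈ f)) (t := nbr H x) (fun (f : Finset V) (y : V) => y ∈ f)
  have h1 : ∀ f ∈ H.filter (fun f => x ∈ f),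
      ((nbr H x).bipartiteAbove (fun (f : Finset V) (y : V) => y ∈ f) f).card = r - 1 := by
    intro f hf
    rw [mem_filter] at hf
    have : (nbr H x).bipartiteAbove (fun (f : Finset V) (y : V) => y ∈ f) f = f.erase x := by
      ext y
      simp only [bipartiteAbove, mem_filter, mem_nbr, mem_erase]
      constructor
      · rintro ⟨⟨hne, -⟩, hy⟩
        exact ⟨hne, hy⟩
      · rintro ⟨hne, hy⟩
        exact ⟨⟨hne, f, hf.1, hf.2, hy⟩, hy⟩
    rw [this, card_erase_of_mem hf.2, hH f hf.1]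
  have h2 : ∀ y ∈ nbr H x, ((H.filter (fun f => x ∈ f)).bipartiteBelow
      (fun (f : Finset V) (y : V) => y ∈ f) y).card ≤ e - 1 := by
    intro y hy
    rw [mem_nbr] at hy
    refine le_trans (card_le_card ?_) (codeg (by omega) hH hfree hy.1.symm he)
    intro f hf
    simp only [bipartiteBelow, mem_filter] at hf ⊢
    exact ⟨hf.1.1, hf.1.2, hf.2⟩
  rw [sum_congr rfl h1, sum_const, smul_eq_mul] at h
  rw [h]
  calc _ ≤ ∑ y ∈ nbr H x, (e - 1) := sum_le_sum h2
    _ = _ := by rw [sum_const, smul_eq_mul]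

theorem count [Fintype V] {r e : ℕ} (hr : 3 ≤ r) (he : 1 ≤ e) {H : Finset (Finset V)}
    (hH : Unif r H) (hfree : Free H ((r - 2) * e + 3) e) :
    H.card * r * (r - 1) ≤ (∑ x : V, (nbr H x).card) * (e - 1) := by
  classical
  have h := sum_card_bipartiteAbove_eq_sum_card_bipartiteBelow
    (s := H) (t := (univ : Finset V)) (fun (f : Finset V) (y : V) => y ∈ f)
  have h1 : ∀ f ∈ H, ((univ : Finset V).bipartiteAbove
      (fun (f : Finset V) (y : V) => y ∈ f) f).card = r := by
    intro f hf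
    have : (univ : Finset V).bipartiteAbove (fun (f : Finset V) (y : V) => y ∈ f) f = f := by
      ext y; simp [bipartiteAbove]
    rw [this, hH f hf]
  rw [sum_congr rfl h1, sum_const, smul_eq_mul] at h
  rw [h, sum_mul, sum_mul]
  exact sum_le_sum (fun x _ => deg_le hr he hH hfree x)

/-- the combinatorial part of the bound: `D` is half of the average size of a neighbourhood -/
theorem dbound [Fintype V] {r e d D : ℕ} (hr : 3 ≤ r) (he : 1 ≤ e) {H : Finset (Finset V)}
    (hH : Unif r H) (hfree : Free H ((r - 2) * e + 3) e) (hVC : NbrVC H d)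
    (hD : 2 * Fintype.card V * D ≤ ∑ x : V, (nbr H x).card) (hD2 : (r * e) ^ 2 ≤ D)
    (hn : 1 ≤ Fintype.card V) :
    2 ^ Nat.log 2 D ≤ (2 * Nat.log 2 D * (r * e * Fintype.card V / D + 1) + 1) ^ d := by
  classical
  set n := Fintype.card V with hnV
  have hre : 1 ≤ r * e := Nat.mul_pos (by omega) he
  have hDp : 1 ≤ D := le_trans (Nat.one_le_pow _ _ hre) hD2
  set P : Finset V := univ.filter (fun x => D ≤ (nbr H x).card) with hP
  -- many vertices of large degree
  have hPc : D ≤ P.card := by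
    have h1 : ∑ x : V, (nbr H x).card ≤ P.card * n + n * D := by
      rw [← sum_filter_add_sum_filter_not univ (fun x => D ≤ (nbr H x).card)]
      apply Nat.add_le_add
      · calc ∑ x ∈ P, (nbr H x).card ≤ ∑ x ∈ P, n := sum_le_sum (fun x _ => card_le_univ _)
          _ = _ := by rw [sum_const, smul_eq_mul]
      · calc ∑ x ∈ univ.filter (fun x => ¬ D ≤ (nbr H x).card), (nbr H x).card
            ≤ ∑ x ∈ univ.filter (fun x => ¬ D ≤ (nbr H x).card), D := by
              apply sum_le_sum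
              intro x hx
              rw [mem_filter] at hx
              omega
          _ = (univ.filter (fun x => ¬ D ≤ (nbr H x).card)).card * D := by
              rw [sum_const, smul_eq_mul]
          _ ≤ n * D := Nat.mul_le_mul_right _ (card_le_univ _)
    have h2 : D * n ≤ P.card * n := by
      have : 2 * n * D = D * n + n * D := by ring
      omega
    exact Nat.le_of_mul_le_mul_right h2 hn
  have hDn : D ≤ n := hPc.trans (card_le_univ _)
  by_contra hcon
  push Not at hcon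
  set a := Nat.log 2 D with ha
  set E := r * e * n / D + 1 with hE
  have hED : r * e * n < E * D := by
    rw [hE, mul_comm (r * e * n / D + 1) D]
    exact Nat.lt_mul_div_succ _ hDp
  have hE2 : 2 ≤ E := by
    have : 1 ≤ r * e * n / D := by
      rw [Nat.le_div_iff_mul_le hDp]
      calc 1 * D ≤ r * e * n := Nat.mul_le_mul hre hDn
        _ = _ := rfl
    omega
  let F : V → V → Bool := fun x y => decide (y ∈ nbr H x)
  have : Nonempty V := Fintype.card_pos_iff.mp hn
  have hpack := LR.pack F univ P univ d E a univ_nonempty hE2 (subset_univ _) (by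
    intro x hx x' hx' hne
    rw [hP, mem_filter] at hx hx'
    have h1 := separated hr he hH hfree hne
    have h2 : (univ.filter (fun y => F x y ≠ F x' y)) =
        (nbr H x \ nbr H x') ∪ (nbr H x' \ nbr H x) := by
      ext y
      simp only [F, mem_filter, mem_univ, true_and, mem_union, mem_sdiff, ne_eq, decide_eq_decide]
      tauto
    have h3 : (univ.filter (fun y => F x y ≠ F x' y)).card =
        (nbr H x \ nbr H x').card + (nbr H x' \ nbr H x).card := by
      rw [h2, card_union_of_disjoint]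
      rw [disjoint_left]
      intro y h4 h5
      rw [mem_sdiff] at h4 h5
      exact h4.2 h5.1
    rw [h3, card_univ]
    set Δ := (nbr H x \ nbr H x').card + (nbr H x' \ nbr H x).card with hΔ
    have h4 : D ≤ r * e * Δ := by omega
    have h5 : r * e * n < r * e * (E * Δ) := by
      calc r * e * n < E * D := hED
        _ ≤ E * (r * e * Δ) := Nat.mul_le_mul_left _ h4
        _ = _ := by ring
    exact Nat.lt_of_mul_lt_mul_left h5) (by
    intro S _ hS
    apply hVC S
    intro T hT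
    obtain ⟨x, -, hx⟩ := hS T hT
    refine ⟨x, fun y hy => ?_⟩
    have := hx y hy
    simpa [F] using this) hcon
  have h1 : 2 ^ a ≤ D := Nat.pow_log_le_self 2 (by omega)
  omega

/-- **Brown–Erdős–Sós for hypergraphs of bounded VC dimension.** -/
theorem bes_vc [Fintype V] {r e d : ℕ} (hr : 3 ≤ r) (he : 1 ≤ e) {H : Finset (Finset V)}
    (hH : Unif r H) (hfree : Free H ((r - 2) * e + 3) e) (hVC : NbrVC H d) :
    (H.card : ℝ) ≤ 3 * (e:ℝ) ^ 3 * Fintype.card V +
      24 * (e:ℝ) ^ 2 * (Fintype.card V : ℝ) ^ (2 - 1 / ((d:ℝ) + 1)) *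
        Real.logb 2 (Fintype.card V) := by
  classical
  set n := Fintype.card V with hnV
  rcases Nat.eq_zero_or_pos n with hn0 | hn
  · have : H = ∅ := by
      rw [eq_empty_iff_forall_notMem]
      intro f hf
      have h1 := hH f hf
      have h2 : f.card ≤ n := card_le_univ f
      omega
    rw [this, hn0]
    simp only [card_empty, Nat.cast_zero, mul_zero, Real.logb_zero, zero_add]
    positivity
  set T := ∑ x : V, (nbr H x).card with hT
  set D := T / (2 * n) with hD
  have hD1 : 2 * n * D ≤ T := Nat.mul_div_le _ _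
  have hD2 : T < 2 * n * (D + 1) := Nat.lt_mul_div_succ _ (by omega)
  have hcount := count hr he hH hfree
  -- `m r (r-1) ≤ 2 e n (D+1)`
  have hm : H.card * (r * (r - 1)) ≤ 2 * e * n * (D + 1) := by
    calc H.card * (r * (r - 1)) = H.card * r * (r - 1) := by ring
      _ ≤ T * (e - 1) := hcount
      _ ≤ (2 * n * (D + 1)) * e := Nat.mul_le_mul hD2.le (by omega)
      _ = _ := by ring
  have hnR : (1:ℝ) ≤ n := by exact_mod_cast hn
  have hlog0 : 0 ≤ Real.logb 2 (n:ℝ) := Real.logb_nonneg (by norm_num) hnR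
  have heR : (1:ℝ) ≤ e := by exact_mod_cast he
  have hrR : (3:ℝ) ≤ r := by exact_mod_cast hr
  have hre : 1 ≤ r * e := Nat.mul_pos (by omega) he
  have hmR : (H.card:ℝ) * ((r:ℝ) * ((r:ℝ) - 1)) ≤ 2 * e * n * ((D:ℝ) + 1) := by
    have h1 : ((H.card * (r * (r - 1)) : ℕ) : ℝ) ≤ ((2 * e * n * (D + 1) : ℕ) : ℝ) := by
      exact_mod_cast hm
    have h2 : ((r - 1 : ℕ) : ℝ) = (r:ℝ) - 1 := by
      rw [Nat.cast_sub (by omega)]; simp
    push_cast [h2] at h1
    exact h1
  have hpow0 : 0 ≤ (n:ℝ) ^ (2 - 1 / ((d:ℝ) + 1)) := by positivity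
  by_cases hDs : D < (r * e) ^ 2
  · -- small degrees
    have h1 : ((D:ℝ) + 1) ≤ ((r:ℝ) * e) ^ 2 := by exact_mod_cast hDs
    have h2 : (H.card:ℝ) * ((r:ℝ) * ((r:ℝ) - 1)) ≤ 2 * e * n * ((r:ℝ) * e) ^ 2 :=
      hmR.trans (mul_le_mul_of_nonneg_left h1 (by positivity))
    have h3 : (H.card:ℝ) ≤ 3 * (e:ℝ) ^ 3 * n := by
      by_contra hcon
      push Not at hcon
      have h4 : 3 * (e:ℝ) ^ 3 * n * ((r:ℝ) * ((r:ℝ) - 1)) <
          (H.card:ℝ) * ((r:ℝ) * ((r:ℝ) - 1)) :=
        mul_lt_mul_of_pos_right hcon (by nlinarith)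
      have h5 : 2 * (e:ℝ) * n * ((r:ℝ) * e) ^ 2 ≤ 3 * (e:ℝ) ^ 3 * n * ((r:ℝ) * ((r:ℝ) - 1)) := by
        have h6 : 0 ≤ (e:ℝ) ^ 3 * n * (r:ℝ) := by positivity
        nlinarith
      linarith
    have h4 : 0 ≤ 24 * (e:ℝ) ^ 2 * (n:ℝ) ^ (2 - 1 / ((d:ℝ) + 1)) * Real.logb 2 n := by positivity
    linarith
  · push Not at hDs
    have hdb := dbound hr he hH hfree hVC hD1 hDs hn
    rw [← hnV] at hdb
    have h9 : 9 ≤ D := by
      have : 3 ≤ r * e := by nlinarith
      nlinarith
    have hDn : D ≤ n := by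
      have h1 : T ≤ n * n := by
        calc T ≤ ∑ x : V, n := sum_le_sum (fun x _ => card_le_univ _)
          _ = n * n := by simp [hnV]
      have h2 : 2 * n * D ≤ n * n := hD1.trans h1
      have h3 : n * (2 * D) ≤ n * n := by linarith
      have := Nat.le_of_mul_le_mul_left h3 hn
      omega
    set a := Nat.log 2 D with ha
    have ha1 : 1 ≤ a := by
      rw [ha]
      exact Nat.log_pos (by norm_num) (by omega)
    have hDlt : D < 2 ^ (a + 1) := Nat.lt_pow_succ_log_self (by norm_num) D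
    have haR : (a:ℝ) ≤ Real.logb 2 n := by
      have h1 : 2 ^ a ≤ n := (Nat.pow_log_le_self 2 (by omega)).trans hDn
      rw [Real.le_logb_iff_rpow_le (by norm_num) (by linarith)]
      rw [Real.rpow_natCast]
      exact_mod_cast h1
    set ℓ := Real.logb 2 (n:ℝ) with hℓ
    have hℓ1 : 1 ≤ ℓ := le_trans (by exact_mod_cast ha1) haR
    have hDR : (9:ℝ) ≤ D := by exact_mod_cast h9
    have hDnR : (D:ℝ) ≤ n := by exact_mod_cast hDn
    -- the quotient
    set E := r * e * n / D + 1 with hE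
    have hER : (E:ℝ) ≤ 2 * (r * e * n) / D := by
      have h1 : ((r * e * n / D : ℕ) : ℝ) ≤ (r * e * n : ℝ) / D := by
        have := Nat.cast_div_le (α := ℝ) (m := r * e * n) (n := D)
        push_cast at this
        exact this
      have h2 : (1:ℝ) ≤ (r * e * n : ℝ) / D := by
        rw [le_div_iff₀ (by linarith)]
        have h3 : (1:ℝ) ≤ r * e := by exact_mod_cast hre
        nlinarith
      rw [hE]
      push_cast
      have h3 : 2 * ((r:ℝ) * e * n) / D = (r * e * n : ℝ) / D + (r * e * n : ℝ) / D := by ring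
      rw [h3]
      push_cast at h1
      linarith
    have hq : (1:ℝ) ≤ E := by
      rw [hE]; push_cast; linarith [Nat.cast_nonneg (α := ℝ) (r * e * n / D)]
    have haR1 : (1:ℝ) ≤ a := by exact_mod_cast ha1
    have h2 : (2 * a * E + 1 : ℝ) ≤ 6 * ℓ * (r * e * n) / D := by
      have h3 : (1:ℝ) ≤ a * E := by nlinarith
      have h4 : (2 * a * E + 1 : ℝ) ≤ 3 * (a * E) := by linarith
      have h5 : (a:ℝ) * E ≤ ℓ * (2 * (r * e * n) / D) :=
        mul_le_mul haR hER (by linarith) (by linarith)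
      calc (2 * a * E + 1 : ℝ) ≤ 3 * (a * E) := h4
        _ ≤ 3 * (ℓ * (2 * (r * e * n) / D)) := by linarith
        _ = _ := by ring
    have h3 : (D:ℝ) ≤ 2 * (6 * ℓ * (r * e * n) / D) ^ d := by
      have h4 : (D:ℝ) ≤ 2 ^ (a + 1) := by exact_mod_cast hDlt.le
      have h5 : (2:ℝ) ^ a ≤ (2 * a * E + 1 : ℝ) ^ d := by exact_mod_cast hdb
      calc (D:ℝ) ≤ 2 ^ (a + 1) := h4
        _ = 2 * 2 ^ a := by ring
        _ ≤ 2 * (2 * a * E + 1 : ℝ) ^ d := by linarith
        _ ≤ 2 * (6 * ℓ * (r * e * n) / D) ^ d := by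
            apply mul_le_mul_of_nonneg_left _ (by norm_num)
            exact pow_le_pow_left₀ (by positivity) h2 d
    have h4 : (D:ℝ) ^ (d + 1) ≤ 2 * (6 * ℓ * (r * e * n)) ^ d := by
      rw [div_pow] at h3
      have h5 : (0:ℝ) < (D:ℝ) ^ d := by positivity
      calc (D:ℝ) ^ (d + 1) = D * (D:ℝ) ^ d := by ring
        _ ≤ (2 * ((6 * ℓ * (r * e * n)) ^ d / (D:ℝ) ^ d)) * (D:ℝ) ^ d :=
            mul_le_mul_of_nonneg_right h3 h5.le
        _ = _ := by field_simp
    -- `D ≤ 12 ℓ r e n^(d/(d+1))`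
    set q := (n:ℝ) ^ ((d:ℝ) / ((d:ℝ) + 1)) with hq'
    have hq0 : 0 ≤ q := by positivity
    have hqp : q ^ (d + 1) = (n:ℝ) ^ d := by
      rw [hq', ← Real.rpow_natCast, ← Real.rpow_mul (by positivity), ← Real.rpow_natCast]
      congr 1
      push_cast
      field_simp
    have h5 : (D:ℝ) ≤ 12 * ℓ * (r * e) * q := by
      have h6 : (D:ℝ) ^ (d + 1) ≤ (12 * ℓ * (r * e) * q) ^ (d + 1) := by
        refine h4.trans ?_
        have hre1 : (1:ℝ) ≤ r * e := by exact_mod_cast hre
        have hc : (1:ℝ) ≤ ℓ * (r * e) := by nlinarith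
        have h7 : (12 * ℓ * (r * e) * q) ^ (d + 1) = (12 * (ℓ * (r * e))) ^ (d + 1) * (n:ℝ) ^ d := by
          rw [← hqp, ← mul_pow]; ring_nf
        have h8 : 2 * (6 * ℓ * (r * e * n)) ^ d = 2 * (6 * (ℓ * (r * e))) ^ d * (n:ℝ) ^ d := by
          have : 6 * ℓ * ((r:ℝ) * e * n) = (6 * (ℓ * (r * e))) * n := by ring
          rw [this, mul_pow]; ring
        rw [h7, h8]
        apply mul_le_mul_of_nonneg_right _ (by positivity)
        rw [pow_succ, mul_comm]
        apply mul_le_mul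
        · exact pow_le_pow_left₀ (by positivity) (by linarith) d
        · linarith
        · norm_num
        · positivity
      exact le_of_pow_le_pow_left₀ (by omega) (by positivity) h6
    have hqn : (n:ℝ) * q = (n:ℝ) ^ (2 - 1 / ((d:ℝ) + 1)) := by
      rw [hq']
      nth_rewrite 1 [← Real.rpow_one (n:ℝ)]
      rw [← Real.rpow_add (by linarith)]
      congr 1
      field_simp
      ring
    have h6 : (H.card:ℝ) * ((r:ℝ) * ((r:ℝ) - 1)) ≤ 48 * e ^ 2 * r * ((n:ℝ) * q) * ℓ := by
      calc (H.card:ℝ) * ((r:ℝ) * ((r:ℝ) - 1)) ≤ 2 * e * n * ((D:ℝ) + 1) := hmR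
        _ ≤ 2 * e * n * (2 * (12 * ℓ * (r * e) * q)) := by
            apply mul_le_mul_of_nonneg_left _ (by positivity)
            linarith
        _ = _ := by ring
    have h7 : (H.card:ℝ) ≤ 24 * (e:ℝ) ^ 2 * ((n:ℝ) * q) * ℓ := by
      by_contra hcon
      push Not at hcon
      have h8 : 24 * (e:ℝ) ^ 2 * ((n:ℝ) * q) * ℓ * ((r:ℝ) * ((r:ℝ) - 1)) <
          (H.card:ℝ) * ((r:ℝ) * ((r:ℝ) - 1)) :=
        mul_lt_mul_of_pos_right hcon (by nlinarith)
      have h9 : 48 * (e:ℝ) ^ 2 * r * ((n:ℝ) * q) * ℓ ≤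
          24 * (e:ℝ) ^ 2 * ((n:ℝ) * q) * ℓ * ((r:ℝ) * ((r:ℝ) - 1)) := by
        have h10 : 0 ≤ (e:ℝ) ^ 2 * ((n:ℝ) * q) * ℓ * r := by positivity
        nlinarith
      linarith
    rw [hqn] at h7
    have h8 : 0 ≤ 3 * (e:ℝ) ^ 3 * n := by positivity
    linarith

end Pool.Agent.H238R2.BES
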